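import Pool.Agent.H251.CycleSpec

/-!
# MP_ee50b4_pr: the product condition does not imply cutoff for random walks on cycles

The cycle has length `n = p_1 ⋯ p_m` for distinct large primes. The increment law is
`(1 - 1/L) ν + (1/L) U` where `U` is uniform and, under the Chinese remainder isomorphism, `ν`
refreshes each coordinate independently with probability `1/m`. The relaxation time is at most
`m`, the walk driven by `ν` alone is not mixed before time of order `m log m`, and `L / m → ∞`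
slower than `log m`, so the distance of the walk at time `t = O(L)` is
`(1 - 1/L)^t (1 - o(1)) + o(1)`, which has no cutoff.
-/

namespace Pool.Agent.Results.MP_ee50b4_pr.CyclesNoCutoff

open Pool.Agent.H251.Walk Filter Topology

/-- There are symmetric ergodic convolution walks on cycles `ℤ/n_k`, `n_k → ∞`, with
`T_rel / T_mix(1/2) → 0` that do not have a total variation cutoff. -/
theorem result : ∃ (n : ℕ → ℕ) (_ : ∀ k, NeZero (n k)) (μ : ∀ k, ZMod (n k) → ℝ),
    (∀ k, 2 ≤ n k) ∧ Tendsto n atTop atTop ∧ (∀ k, IsLaw (μ k)) ∧ (∀ k, IsErgodic (μ k)) ∧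
    (∀ k x, μ k (-x) = μ k x) ∧
    Tendsto (fun k => Trel (μ k) / (Tmix (μ k) (1 / 2) : ℝ)) atTop (𝓝 0) ∧
    ¬ (∀ ε : ℝ, 0 < ε → ε < 1 / 2 →
      Tendsto (fun k => (Tmix (μ k) ε : ℝ) / (Tmix (μ k) (1 - ε) : ℝ)) atTop (𝓝 1)) := by
  refine ⟨NN, fun k => NN_neZero k, mu, ?_, ?_, mu_law, mu_ergodic, mu_symm, ?_, ?_⟩
  · intro k
    have := NN_ge k
    have := mm_pos k
    omega
  · apply tendsto_atTop_mono (f := fun k => k) _ tendsto_id
    intro k
    have := NN_ge k
    have := mm_ge k
    show k ≤ NN k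
    omega
  · have h1 : ∀ k, Trel (mu k) / (Tmix (mu k) (1 / 2) : ℝ) ≤ 1 / ((k : ℝ) + 1) := by
      intro k
      have hT := Trel_le k
      have hM : (ell k : ℝ) ≤ Tmix (mu k) (1 / 2) := by exact_mod_cast (Tmix_half k).le
      have hl := ellR_pos k
      have hm := mmR_pos k
      have he : (ell k : ℝ) = mm k * (k + 1) := by unfold ell; push_cast; ring
      rw [div_le_div_iff₀ (lt_of_lt_of_le hl hM) (by positivity)]
      rw [he] at hM
      have hk : (0 : ℝ) ≤ (k : ℝ) + 1 := by positivity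
      calc Trel (mu k) * ((k : ℝ) + 1) ≤ mm k * (k + 1) := mul_le_mul_of_nonneg_right hT hk
        _ ≤ _ := by linarith
    have h0 : ∀ k, 0 ≤ Trel (mu k) / (Tmix (mu k) (1 / 2) : ℝ) :=
      fun k => div_nonneg (Trel_nonneg k) (Nat.cast_nonneg _)
    exact squeeze_zero h0 h1 tendsto_one_div_add_atTop_nhds_zero_nat
  · intro h
    have h1 := h (1 / 5) (by norm_num) (by norm_num)
    have h2 : ∀ k, 2 ≤ (Tmix (mu k) (1 / 5) : ℝ) / (Tmix (mu k) (1 - 1 / 5) : ℝ) := by
      intro k
      have ha : (2 * ell k : ℝ) ≤ Tmix (mu k) (1 / 5) := by exact_mod_cast (Tmix_fifth k).le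
      have hb : (Tmix (mu k) (1 - 1 / 5) : ℝ) ≤ ell k := by exact_mod_cast Tmix_four_fifths k
      have hc : (0 : ℝ) < Tmix (mu k) (1 - 1 / 5) := by exact_mod_cast Tmix_pos k
      rw [le_div_iff₀ hc]
      linarith
    have h3 := ge_of_tendsto' h1 h2
    norm_num at h3

end Pool.Agent.Results.MP_ee50b4_pr.CyclesNoCutoff
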